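import Pool.Agent.V5helper14.SPGeom

set_option autoImplicit false

/-!
# A lower bound for the length of superpermutations beyond `n! + (n-1)! + (n-2)! + n - 3`

`L n` is the minimum length of a superpermutation on `n` symbols.  The best general lower bound was
`n! + (n-1)! + (n-2)! + n - 3`.  It is improved by `((n-2)! - (n-1)) / (2 (n-1)^2 - 1)`, which is
asymptotically `(n-4)! / 2`.  In particular `L 6 ≥ 868` and `L 7 ≥ 5886`.
-/

namespace Pool.Agent.Results.MP_e0d433_co.ThirdOrderLowerBound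

open Pool.Agent.V5helper14.SP

/-- `w` is a superpermutation on `n` symbols: every word of length `n` in which each of the `n`
symbols occurs exactly once is a contiguous subword of `w`. -/
def IsSuperperm (n : ℕ) (w : List (Fin n)) : Prop :=
  ∀ u : List (Fin n), u.length = n → (∀ x : Fin n, u.count x = 1) → u <:+: w

/-- The minimum length of a superpermutation on `n` symbols. -/
noncomputable def L (n : ℕ) : ℕ := sInf {l | ∃ w : List (Fin n), IsSuperperm n w ∧ w.length = l}

/-- superpermutations exist -/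
lemma exists_superperm (n : ℕ) : ∃ w : List (Fin n), IsSuperperm n w := by
  classical
  refine ⟨((Finset.univ : Finset (List.Vector (Fin n) n)).toList.map (fun v => v.1)).flatten, ?_⟩
  intro u hu _
  apply List.infix_of_mem_flatten
  rw [List.mem_map]
  exact ⟨(⟨u, hu⟩ : List.Vector (Fin n) n), Finset.mem_toList.2 (Finset.mem_univ _), rfl⟩

lemma occ_of_superperm {n : ℕ} {w : List (Fin n)} (hw : IsSuperperm n w)
    (a : Equiv.Perm (Fin n)) : ∃ i, Occ w i a := by
  classical
  have h1 : (List.ofFn (fun j => a j)).length = n := List.length_ofFn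
  have h2 : ∀ x : Fin n, (List.ofFn (fun j => a j)).count x = 1 := by
    intro x
    apply List.count_eq_one_of_mem
    · rw [List.nodup_ofFn]
      exact a.injective
    · rw [List.mem_ofFn]
      exact ⟨a.symm x, by simp⟩
  obtain ⟨s, t, hst⟩ := hw _ h1 h2
  refine ⟨s.length, ?_⟩
  intro j hj
  rw [← hst, List.append_assoc, List.getElem?_append_right (by omega)]
  rw [List.getElem?_append_left (by rw [h1]; omega)]
  have : s.length + j - s.length = j := by omega
  rw [this, List.getElem?_ofFn]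
  simp [hj]

/-- the bound for one superpermutation -/
lemma bound_word {n : ℕ} (hn : 3 ≤ n) {w : List (Fin n)} (hw : IsSuperperm n w) :
    (Nat.factorial n : ℚ) + Nat.factorial (n - 1) + Nat.factorial (n - 2) + n - 3 +
      (Nat.factorial (n - 2) - (n - 1)) / (2 * (n - 1) ^ 2 - 1) ≤ w.length := by
  classical
  have W := walk_of_word hn (occ_of_superperm hw)
  obtain ⟨i, hi⟩ := occ_of_superperm hw 1
  have hle := hi.le (by omega)
  have hfac : Nat.factorial n = n * ((n - 1) * Nat.factorial (n - 2)) := by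
    obtain ⟨m, rfl⟩ := Nat.exists_eq_add_of_le hn
    have h1 : 3 + m = (m + 1) + 1 + 1 := by ring
    have h2 : 3 + m - 1 = m + 1 + 1 := by omega
    have h3 : 3 + m - 2 = m + 1 := by omega
    rw [h2, h3, h1, Nat.factorial_succ (m + 1 + 1), Nat.factorial_succ (m + 1)]
  have hfac1 : Nat.factorial (n - 1) = (n - 1) * Nat.factorial (n - 2) := by
    obtain ⟨m, rfl⟩ := Nat.exists_eq_add_of_le hn
    have h2 : 3 + m - 1 = m + 1 + 1 := by omega
    have h3 : 3 + m - 2 = m + 1 := by omega
    rw [h2, h3, Nat.factorial_succ (m + 1)]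
  have hX : Fintype.card (Equiv.Perm (Fin n)) = n * ((n - 1) * Nat.factorial (n - 2)) := by
    rw [Fintype.card_perm, Fintype.card_fin, hfac]
  have hpos : 0 < 2 * (n - 1) ^ 2 := by
    have : 0 < n - 1 := by omega
    positivity
  have hK : (2 * (n - 1) ^ 2 - 1) + 1 = 2 * (n - 1) ^ 2 := by omega
  have key := main_ineq W hX hK
  rw [Fintype.card_perm, Fintype.card_fin, ← hfac1] at key
  have hMcast : ((w.length - n : ℕ) : ℚ) = (w.length : ℚ) - n := by
    rw [Nat.cast_sub (by omega)]
  have hncast : ((n - 1 : ℕ) : ℚ) = (n : ℚ) - 1 := by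
    rw [Nat.cast_sub (by omega)]; simp
  have hKcast : ((2 * (n - 1) ^ 2 - 1 : ℕ) : ℚ) = 2 * ((n : ℚ) - 1) ^ 2 - 1 := by
    rw [Nat.cast_sub (by omega)]
    push_cast
    rw [hncast]
  have keyQ : ((Nat.factorial (n - 2) : ℕ) : ℚ) + (2 * ((n : ℚ) - 1) ^ 2 - 1) *
      ((Nat.factorial n : ℚ) + Nat.factorial (n - 1) + Nat.factorial (n - 2)) ≤
      (2 * ((n : ℚ) - 1) ^ 2 - 1) * ((w.length : ℚ) - n + 3) + ((n : ℚ) - 1) := by
    rw [← hKcast, ← hMcast, ← hncast]
    exact_mod_cast key
  have hn' : (3 : ℚ) ≤ n := by exact_mod_cast hn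
  have hKpos : (0 : ℚ) < 2 * ((n : ℚ) - 1) ^ 2 - 1 := by nlinarith
  have hfin : ((Nat.factorial (n - 2) : ℚ) - (n - 1)) / (2 * (n - 1) ^ 2 - 1) ≤
      (w.length : ℚ) - n + 3 - ((Nat.factorial n : ℚ) + Nat.factorial (n - 1) +
        Nat.factorial (n - 2)) := by
    rw [div_le_iff₀ hKpos]
    linarith
  linarith

/-- **A lower bound for the length of superpermutations.**  For every `n ≥ 3`
`L n ≥ n! + (n-1)! + (n-2)! + n - 3 + ((n-2)! - (n-1)) / (2 (n-1)^2 - 1)`;
in particular `L 6 ≥ 868` and `L 7 ≥ 5886`. -/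
theorem result :
    (∀ n : ℕ, 3 ≤ n →
      (Nat.factorial n : ℚ) + Nat.factorial (n - 1) + Nat.factorial (n - 2) + n - 3 +
        (Nat.factorial (n - 2) - (n - 1)) / (2 * (n - 1) ^ 2 - 1) ≤ L n) ∧
    868 ≤ L 6 ∧ 5886 ≤ L 7 := by
  have main : ∀ n : ℕ, 3 ≤ n →
      (Nat.factorial n : ℚ) + Nat.factorial (n - 1) + Nat.factorial (n - 2) + n - 3 +
        (Nat.factorial (n - 2) - (n - 1)) / (2 * (n - 1) ^ 2 - 1) ≤ L n := by
    intro n hn
    have hne : {l | ∃ w : List (Fin n), IsSuperperm n w ∧ w.length = l}.Nonempty := by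
      obtain ⟨w, hw⟩ := exists_superperm n
      exact ⟨w.length, w, hw, rfl⟩
    obtain ⟨w, hw, hl⟩ := Nat.sInf_mem hne
    have h := bound_word hn hw
    rw [hl] at h
    exact h
  refine ⟨main, ?_, ?_⟩
  · have h := main 6 (by norm_num)
    norm_num [Nat.factorial] at h
    by_contra hcon
    have h2 : L 6 ≤ 867 := by omega
    have h3 : (L 6 : ℚ) ≤ 867 := by exact_mod_cast h2
    linarith
  · have h := main 7 (by norm_num)
    norm_num [Nat.factorial] at h
    by_contra hcon
    have h2 : L 7 ≤ 5885 := by omega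
    have h3 : (L 7 : ℚ) ≤ 5885 := by exact_mod_cast h2
    linarith

end Pool.Agent.Results.MP_e0d433_co.ThirdOrderLowerBound
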